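import Pool.Agent.Y649.DG.Main
import Pool.Agent.Y649.DG.Gen
import Pool.Agent.Y638.RF.MinPlus

set_option autoImplicit false

/-! # Formulas with determinant gates: shortcuts in layered graphs -/

namespace Pool.Agent.U737.DA

open Finset Pool.Agent.TH697.Row
open Pool.Agent.TH697.Form (IsProb)
open Pool.Agent.Y649.DG
open Pool.Agent.TH697.Form.MinPlus (Item InRange shortcut)
open Pool.Agent.Y638.RF.MinPlus (asks approx_mono)

theorem lower {n c w : ℕ} (hn : 16 ≤ n) (hc : 1 ≤ c) (hw : 1 ≤ w) {Ω : Type} [Fintype Ω]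
    (μ : Ω → ℝ) (hμ : IsProb μ) (s : ℕ)
    (F : Ω → Fml (Option (Fin n)) (Item n) w (n ^ c)) (hs : ∀ ω, (F ω).size ≤ s)
    (hF : ApproximatesOn μ (fun ω => (F ω).accepts) (InRange n (n + 1)) (shortcut n)) :
    (n : ℝ) ^ 4 ≤ 2 * 10 ^ 7 * c * w ^ 3 * s ^ 2 := by
  classical
  have hn' : (16 : ℝ) ≤ n := by exact_mod_cast hn
  have hw' : (1 : ℝ) ≤ w := by exact_mod_cast hw
  have hc' : (1 : ℝ) ≤ c := by exact_mod_cast hc
  have hs0 : (0 : ℝ) ≤ s := Nat.cast_nonneg s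
  by_cases hsm : n ^ 3 ≤ s
  · have h1 : (n : ℝ) ^ 3 ≤ s := by exact_mod_cast hsm
    have h2 : (n : ℝ) ^ 4 ≤ (s : ℝ) ^ 2 := by
      calc (n : ℝ) ^ 4 ≤ (n : ℝ) ^ 6 := pow_le_pow_right₀ (by linarith) (by norm_num)
        _ = ((n : ℝ) ^ 3) ^ 2 := by ring
        _ ≤ (s : ℝ) ^ 2 := pow_le_pow_left₀ (by positivity) h1 2
    have h3 : (1 : ℝ) ≤ w ^ 3 := one_le_pow₀ hw'
    have h4 : (1 : ℝ) ≤ 2 * 10 ^ 7 * c * w ^ 3 :=
      one_le_mul_of_one_le_of_one_le (by linarith) h3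
    have h5 : 0 ≤ (s : ℝ) ^ 2 := by positivity
    nlinarith
  obtain ⟨b, hb⟩ : ∃ b, b = Nat.log 2 n := ⟨_, rfl⟩
  have hb4 : 4 ≤ b := by
    have := Nat.log_mono_right (b := 2) hn
    rw [hb]
    rwa [show Nat.log 2 16 = 4 by decide +kernel] at this
  have hpow : 2 ^ b ≤ n := by
    rw [hb]
    exact Nat.pow_log_le_self 2 (by omega)
  have hpow2 : n < 2 ^ (b + 1) := by
    have := Nat.lt_pow_succ_log_self (b := 2) (by norm_num) n
    rw [hb]
    exact this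
  obtain ⟨l, hl'⟩ : ∃ l : ℝ, l = Real.logb 2 (n : ℝ) := ⟨_, rfl⟩
  have hlb : l ≤ 5 / 4 * b := by
    have h9 := Pool.Agent.TH457.Ary.MinPlus.logb_q (c := 1) (by omega) hb4 hpow2
    rw [hl']
    simpa using h9
  have hl : (4 : ℝ) ≤ l := by
    have h11 : ((2 : ℝ)) ^ 4 ≤ n := by linarith
    have h12 := Real.logb_le_logb_of_le (by norm_num : (1 : ℝ) < 2) (by positivity) h11
    rw [Real.logb_pow, Real.logb_self_eq_one (by norm_num)] at h12
    norm_num at h12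
    rw [hl']
    exact h12
  have hb4' : (4 : ℝ) ≤ b := by exact_mod_cast hb4
  have hM : 4 * n ^ 3 * (5 * s + 1) + 2 + s ≤ n ^ 8 := by
    have h1 : s < n ^ 3 := by omega
    have h2 : 4 * n ^ 3 * (5 * s + 1) ≤ 4 * n ^ 3 * (5 * n ^ 3) := Nat.mul_le_mul_left _ (by omega)
    have h3 : 4 * n ^ 3 * (5 * n ^ 3) = 20 * n ^ 6 := by ring
    have h4 : n ^ 3 ≤ n ^ 6 := Nat.pow_le_pow_right (by omega) (by norm_num)
    have h5 : 256 * n ^ 6 ≤ n ^ 8 := by
      calc 256 * n ^ 6 = 16 ^ 2 * n ^ 6 := by norm_num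
        _ ≤ n ^ 2 * n ^ 6 := Nat.mul_le_mul_right _ (Nat.pow_le_pow_left hn 2)
        _ = n ^ 8 := by ring
    have h6 : 1 ≤ n ^ 6 := Nat.one_le_pow _ _ (by omega)
    omega
  have hLL : 1 + 5 * Real.logb 2 ((n ^ 8 : ℕ) : ℝ) +
      ((w : ℝ) - 1) * Real.logb 2 ((n ^ c : ℕ) : ℝ) ≤ 41 * w * c * l := by
    rw [Nat.cast_pow n 8, Nat.cast_pow n c, Real.logb_pow, Real.logb_pow, ← hl']
    push_cast
    have h0 : (1 : ℝ) + 5 * (8 * l) ≤ 41 * l := by linarith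
    have h1 : 0 ≤ c * l := by positivity
    have h2 : l ≤ c * l := by nlinarith
    have h3 : c * l ≤ w * (c * l) := by nlinarith
    nlinarith
  have hcard : Fintype.card (Fin n × Fin n × Fin b) = n * (n * b) := by
    rw [Fintype.card_prod, Fintype.card_prod, Fintype.card_fin, Fintype.card_fin]
  have ht : (100 : ℝ) ≤ n * (n * b) := by
    have h1 : (16 : ℝ) * 4 ≤ n * b := mul_le_mul hn' hb4' (by norm_num) (by linarith)
    have h2 : (16 : ℝ) * (16 * 4) ≤ n * (n * b) :=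
      mul_le_mul hn' h1 (by norm_num) (by linarith)
    linarith
  have h := bound_sq bound (D := Item n) μ hμ F (InRange n (2 ^ b + 1)) (shortcut n)
    (approx_mono μ _ _ _ _
      (fun x hx => Pool.Agent.TH457.Ary.MinPlus.inRange_mono (by omega) x hx) hF) s hs
    (Nat.one_le_pow _ _ (by omega)) hw (n ^ 3) (n ^ 8) hM 0 (by norm_num)
    ((univ : Finset (Fin n)).map Function.Embedding.some) (T := Fin n × Fin n × Fin b) (by
      intro a ha
      rw [mem_map] at ha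
      obtain ⟨i, -, rfl⟩ := ha
      exact asks hpow i)
    ((n : ℝ) * (n * b)) ht (by rw [hcard]; push_cast; exact le_rfl) (41 * w * c * l) hLL
  rw [card_map, card_univ, Fintype.card_fin] at h
  have e1 : (n : ℝ) ^ 2 * (n * (n * b)) = b * n ^ 4 := by ring
  rw [e1] at h
  have h8 : 0 ≤ (w : ℝ) ^ 2 * (w * c) * s ^ 2 := by positivity
  have h9 : 360000 * (w : ℝ) ^ 2 * (41 * w * c * l) * s ^ 2 ≤
      (b : ℝ) * (2 * 10 ^ 7 * c * w ^ 3 * s ^ 2) := by
    have e2 : 360000 * (w : ℝ) ^ 2 * (41 * w * c * l) * s ^ 2 =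
        (360000 * 41 * l) * ((w : ℝ) ^ 2 * (w * c) * s ^ 2) := by ring
    have e3 : (b : ℝ) * (2 * 10 ^ 7 * c * w ^ 3 * s ^ 2) =
        (2 * 10 ^ 7 * b) * ((w : ℝ) ^ 2 * (w * c) * s ^ 2) := by ring
    rw [e2, e3]
    apply mul_le_mul_of_nonneg_right _ h8
    linarith
  exact le_of_mul_le_mul_left (h.trans h9) (by linarith)

end Pool.Agent.U737.DA
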