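import Pool.Agent.U737.DO.Up
import Pool.Agent.TH697.Form.MinPlusDefs

set_option autoImplicit false

/-! # Shortcuts by one determinant close to the identity -/

namespace Pool.Agent.U737.DA

open Finset Matrix Filter Topology
open Pool.Agent.Y649.DG
open Pool.Agent.TH697.Form.MinPlus (Item InRange shortcut)

variable {n : ℕ}

/-- close to the identity the determinant is one minus the trace, uniformly for finitely many
matrices -/
theorem exists_small {α : Type} [Finite α] (Y : α → Matrix (Fin n) (Fin n) ℝ) :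
    ∃ s : ℝ, 0 < s ∧ ∀ a, |(1 - s • Y a).det - (1 - s * (Y a).trace)| ≤ s / 4 := by
  have h1 : ∀ a : α, ∀ᶠ s in 𝓝[>] (0 : ℝ),
      |(1 - s • Y a).det - (1 - s * (Y a).trace)| ≤ s / 4 := by
    intro a
    obtain ⟨Q, hQ⟩ : ∃ Q : Polynomial ℝ, Q = (Matrix.det (1 + (Polynomial.X : Polynomial ℝ) •
      (Y a).map Polynomial.C)).divX.divX := ⟨_, rfl⟩
    have h2 : ∀ s : ℝ, (1 - s • Y a).det - (1 - s * (Y a).trace) =
        Q.eval (-s) * s ^ 2 := by
      intro s
      have h3 := Matrix.det_one_add_smul (-s) (Y a)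
      rw [← hQ] at h3
      have h4 : (1 : Matrix (Fin n) (Fin n) ℝ) + (-s) • Y a = 1 - s • Y a := by
        rw [neg_smul, sub_eq_add_neg]
      rw [h4] at h3
      rw [h3]
      ring
    have h5 : Tendsto (fun s : ℝ => |Q.eval (-s)| * s) (𝓝 0) (𝓝 (|Q.eval (-0)| * 0)) := by
      apply Continuous.tendsto
      fun_prop
    rw [mul_zero] at h5
    have h6 : ∀ᶠ s in 𝓝 (0 : ℝ), |Q.eval (-s)| * s < 1 / 4 :=
      h5.eventually (gt_mem_nhds (by norm_num))
    filter_upwards [h6.filter_mono nhdsWithin_le_nhds, self_mem_nhdsWithin] with s hs hs0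
    have hs0' : (0 : ℝ) < s := hs0
    simp only [h2]
    rw [abs_mul, abs_of_nonneg (by positivity : (0 : ℝ) ≤ s ^ 2)]
    have h7 : |Q.eval (-s)| * s ^ 2 = (|Q.eval (-s)| * s) * s := by ring
    rw [h7]
    nlinarith
  have h2 := (eventually_all.2 h1).and self_mem_nhdsWithin
  obtain ⟨s, hs, hs0⟩ := h2.exists
  exact ⟨s, hs0, hs⟩

/-- the three matrices -/
noncomputable def mA (X : ℝ) (A : Fin n → Fin n → ℕ) : Matrix (Fin n) (Fin n) ℝ :=
  Matrix.of fun i k => (X ^ A i k)⁻¹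

noncomputable def mC (X : ℝ) (C : Fin n → Fin n → ℕ) : Matrix (Fin n) (Fin n) ℝ :=
  Matrix.of fun j i => X ^ C i j

theorem trace_prod (X : ℝ) (A B C : Fin n → Fin n → ℕ) :
    (mA X A * mA X B * mC X C).trace =
      ∑ i, ∑ j, ∑ k, (X ^ A i k)⁻¹ * (X ^ B k j)⁻¹ * X ^ C i j := by
  unfold Matrix.trace
  refine sum_congr rfl fun i _ => ?_
  rw [Matrix.diag_apply, Matrix.mul_apply]
  refine sum_congr rfl fun j _ => ?_
  rw [Matrix.mul_apply, sum_mul]
  rfl

theorem trace_le {X : ℝ} (hX : 1 ≤ X) {A B C : Fin n → Fin n → ℕ}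
    (h : ¬ ∃ i k j, A i k + B k j < C i j) : (mA X A * mA X B * mC X C).trace ≤ (n : ℝ) ^ 3 := by
  rw [trace_prod]
  have h1 : ∀ i j k, (X ^ A i k)⁻¹ * (X ^ B k j)⁻¹ * X ^ C i j ≤ 1 := by
    intro i j k
    have h2 : C i j ≤ A i k + B k j := by
      by_contra h3
      exact h ⟨i, k, j, by omega⟩
    have h0 : 0 < X ^ A i k * X ^ B k j := by positivity
    rw [← mul_inv, inv_mul_le_iff₀ h0, mul_one, ← pow_add]
    exact pow_le_pow_right₀ hX h2
  calc ∑ i : Fin n, ∑ j : Fin n, ∑ k : Fin n, (X ^ A i k)⁻¹ * (X ^ B k j)⁻¹ * X ^ C i j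
      ≤ ∑ _i : Fin n, ∑ _j : Fin n, ∑ _k : Fin n, (1 : ℝ) :=
        sum_le_sum fun i _ => sum_le_sum fun j _ => sum_le_sum fun k _ => h1 i j k
    _ = (n : ℝ) ^ 3 := by
        simp only [sum_const, card_univ, Fintype.card_fin, nsmul_eq_mul, mul_one]
        ring

theorem le_trace {X : ℝ} (hX : 1 ≤ X) {A B C : Fin n → Fin n → ℕ}
    (h : ∃ i k j, A i k + B k j < C i j) : X ≤ (mA X A * mA X B * mC X C).trace := by
  obtain ⟨i, k, j, h⟩ := h
  rw [trace_prod]
  have hX0 : 0 < X := by linarith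
  have h0 : ∀ i j k, 0 ≤ (X ^ A i k)⁻¹ * (X ^ B k j)⁻¹ * X ^ C i j := fun i j k => by positivity
  have h1 : X ≤ (X ^ A i k)⁻¹ * (X ^ B k j)⁻¹ * X ^ C i j := by
    have h2 : 0 < X ^ A i k * X ^ B k j := by positivity
    rw [← mul_inv, le_inv_mul_iff₀ h2, ← pow_add, ← pow_succ]
    exact pow_le_pow_right₀ hX h
  refine h1.trans ?_
  refine le_trans ?_ (single_le_sum
    (f := fun i => ∑ j, ∑ k, (X ^ A i k)⁻¹ * (X ^ B k j)⁻¹ * X ^ C i j)
    (fun i _ => sum_nonneg fun j _ => sum_nonneg fun k _ => h0 i j k) (mem_univ i))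
  refine le_trans ?_ (single_le_sum
    (f := fun j => ∑ k, (X ^ A i k)⁻¹ * (X ^ B k j)⁻¹ * X ^ C i j)
    (fun j _ => sum_nonneg fun k _ => h0 i j k) (mem_univ j))
  exact single_le_sum (f := fun k => (X ^ A i k)⁻¹ * (X ^ B k j)⁻¹ * X ^ C i j)
    (fun k _ => h0 i j k) (mem_univ k)

/-- the big matrix -/
noncomputable def big (X s : ℝ) (A B C : Fin n → Fin n → ℕ) :
    Matrix ((Fin n ⊕ Fin n) ⊕ Fin n) ((Fin n ⊕ Fin n) ⊕ Fin n) ℝ :=
  Matrix.fromBlocks (Matrix.fromBlocks 1 (-(mA X A)) 0 1)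
    (Matrix.fromRows 0 (-(mA X B))) (Matrix.fromCols (-(s • mC X C)) 0) 1

/-- the formulas in the big matrix -/
noncomputable def entry (X s : ℝ) (w q : ℕ) : (Fin n ⊕ Fin n) ⊕ Fin n →
    (Fin n ⊕ Fin n) ⊕ Fin n → Fml (Option (Fin n)) (Item n) w q
  | .inl (.inl i), .inl (.inl i') => .const (if i = i' then 1 else 0)
  | .inl (.inl i), .inl (.inr j) => .item (some i)
      (fun (v : (Fin n → ℕ) × (Fin n → ℕ)) => -(X ^ v.1 j)⁻¹)
  | .inl (.inl _), .inr _ => .const 0
  | .inl (.inr _), .inl (.inl _) => .const 0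
  | .inl (.inr j), .inl (.inr j') => .const (if j = j' then 1 else 0)
  | .inl (.inr j), .inr k => .item none (fun (M : Fin n → Fin n → ℕ) => -(X ^ M j k)⁻¹)
  | .inr k, .inl (.inl i) => .item (some i)
      (fun (v : (Fin n → ℕ) × (Fin n → ℕ)) => -(s * X ^ v.2 k))
  | .inr _, .inl (.inr _) => .const 0
  | .inr k, .inr k' => .const (if k = k' then 1 else 0)

theorem entry_eval (X s : ℝ) (w q : ℕ) (x : ∀ i, Item n i) (a b : (Fin n ⊕ Fin n) ⊕ Fin n) :
    (entry X s w q a b).eval x = big X s (fun i => (x (some i)).1) (x none)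
      (fun i => (x (some i)).2) a b := by
  unfold big
  rcases a with (i | j) | k <;> rcases b with (i' | j') | k' <;>
    simp [entry, Fml.eval, Matrix.one_apply, mA, mC]

theorem entry_size (X s : ℝ) (w q : ℕ) :
    ∑ a : (Fin n ⊕ Fin n) ⊕ Fin n, ∑ b : (Fin n ⊕ Fin n) ⊕ Fin n,
      (entry X s w q a b).size = 3 * n ^ 2 := by
  simp only [Fintype.sum_sum_type, entry, Fml.size, sum_const, card_univ, Fintype.card_fin,
    smul_eq_mul, mul_zero, mul_one, add_zero, zero_add]
  ring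

/-- the upper bound -/
theorem upper (n w q W : ℕ) : ∃ F : Fml (Option (Fin n)) (Item n) w q, F.size ≤ 3 * n ^ 2 ∧
    ∀ x, InRange n W x → F.accepts x = shortcut n x := by
  classical
  obtain ⟨X, hX⟩ : ∃ X : ℝ, X = (n : ℝ) ^ 3 + 1 := ⟨_, rfl⟩
  have hX1 : 1 ≤ X := by
    rw [hX]
    have : (0 : ℝ) ≤ (n : ℝ) ^ 3 := by positivity
    linarith
  obtain ⟨s, hs0, hs⟩ := exists_small (n := n)
    (fun y : (Fin n → Fin n → Fin (W + 1)) × (Fin n → Fin n → Fin (W + 1)) ×
      (Fin n → Fin n → Fin (W + 1)) => mA X (fun i k => (y.1 i k).val) *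
        mA X (fun i k => (y.2.1 i k).val) * mC X (fun i k => (y.2.2 i k).val))
  obtain ⟨e⟩ : Nonempty (((Fin n ⊕ Fin n) ⊕ Fin n) ≃ Fin (n + n + n)) :=
    ⟨(finSumFinEquiv.sumCongr (Equiv.refl _)).trans finSumFinEquiv⟩
  refine ⟨.det 2 (fun a b => if a = 0 then if b = 0 then .const (1 - s * (X - 1 / 2)) else
    .det (n + n + n) (fun a b => entry X s w q (e.symm a) (e.symm b)) else .const 1), ?_,
    fun x hx => ?_⟩
  · simp only [Fml.size, Fin.sum_univ_two]
    simp only [if_true, Fml.size, one_ne_zero, if_false, Fin.isValue, zero_add, add_zero]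
    rw [← entry_size (n := n) X s w q, ← Equiv.sum_comp e.symm]
    refine le_of_eq (sum_congr rfl fun a _ => ?_)
    exact Equiv.sum_comp e.symm (fun b => (entry X s w q (e.symm a) b).size)
  · unfold Fml.accepts shortcut
    rw [Bool.eq_iff_iff, decide_eq_true_iff, decide_eq_true_iff]
    have h1 : ((Fml.det (n + n + n) (fun a b => entry X s w q (e.symm a) (e.symm b)) :
        Fml (Option (Fin n)) (Item n) w q).eval x) =
        (1 - s • (mA X (fun i => (x (some i)).1) * mA X (x none) *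
          mC X (fun i => (x (some i)).2))).det := by
      rw [← Pool.Agent.U737.DO.det_aux]
      simp only [Fml.eval, entry_eval]
      exact Matrix.det_submatrix_equiv_self e.symm _
    have h2 : (Fml.det 2 (fun a b => if a = 0 then if b = 0 then
        .const (1 - s * (X - 1 / 2)) else
        .det (n + n + n) (fun a b => entry X s w q (e.symm a) (e.symm b)) else .const 1) :
        Fml (Option (Fin n)) (Item n) w q).eval x = (1 - s * (X - 1 / 2)) -
        (1 - s • (mA X (fun i => (x (some i)).1) * mA X (x none) *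
          mC X (fun i => (x (some i)).2))).det := by
      rw [← h1]
      rw [Fml.eval, Matrix.det_fin_two]
      simp [Fml.eval]
    rw [h2]
    have h3 := hs (fun i k => ⟨(x (some i)).1 k, Nat.lt_succ_of_le (hx.2 i k).1.2⟩,
      fun k j => ⟨x none k j, Nat.lt_succ_of_le (hx.1 k j).2⟩,
      fun i k => ⟨(x (some i)).2 k, Nat.lt_succ_of_le (hx.2 i k).2.2⟩)
    simp only at h3
    rw [abs_le] at h3
    constructor
    · intro h
      by_contra h4
      have h5 : (mA X (fun i => (x (some i)).1) * mA X (x none) *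
          mC X (fun i => (x (some i)).2)).trace ≤ (n : ℝ) ^ 3 := trace_le hX1 (by
        rintro ⟨i, k, j, h6⟩
        exact h4 ⟨i, k, j, h6⟩)
      have h6 := mul_le_mul_of_nonneg_left h5 hs0.le
      have h7 : s * (n : ℝ) ^ 3 = s * X - s := by
        rw [hX]
        ring
      have h8 : s * (X - 1 / 2) = s * X - s / 2 := by ring
      linarith [h3.1]
    · rintro ⟨i, k, j, h4⟩
      have h5 : X ≤ (mA X (fun i => (x (some i)).1) * mA X (x none) *
          mC X (fun i => (x (some i)).2)).trace := le_trace hX1 ⟨i, k, j, h4⟩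
      have h6 := mul_le_mul_of_nonneg_left h5 hs0.le
      have h8 : s * (X - 1 / 2) = s * X - s / 2 := by ring
      linarith [h3.2]

end Pool.Agent.U737.DA
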